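import Mathlib
import Pool.Agent.Q29.GoodAlg
import Pool.Agent.TH456.TM.Inst

/-!
# The logarithms of two primes: all numbers which are algebraic over `ℚ(log p, t)`

Let `p` be a prime and `t` a real number, for instance `t = log q` with another prime `q`. If `log p` and `log q` are
algebraically independent, all numbers algebraic over `ℚ(log p, log q)` but not over `ℚ` are transcendental, for instance
`log p log q`, `log p / log q`, `(log p) ^ 2 + log q` and their roots. We prove:

(1) At each scale `N ≥ N₀` (uniformly for `|t| ≤ T`) there is one irreducible integer polynomial `Q` in two variables, of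
positive degree in `y`, such that the following is true for all irrational elements of `ℚ(log p, t)` and of its algebraic
closure which are simple and not near to rational numbers because of `Q`: if the real number `x`, `|x| ≤ N ^ κ`, is a zero
of a polynomial `F(log p, t, X)`, where `F` is an integer polynomial in three variables of degree at most `D` in each
variable and of height at most `N ^ κ` such that `F(x, y, p / q)` is not zero modulo `Q` for all rational numbers `p / q`,
then the multiples of `x` by the integers up to `M`, by their `k`-th powers, `k ≤ K` (even with real polynomials of degree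
less than `k` added), and by the primes up to `M` in each residue class modulo `d ≤ M ^ κ` are uniformly distributed modulo
one in the intervals of length `1 / q`, `q ≤ M ^ κ`, with an error `M ^ (1 - κ)`, for all `M` from `N` to `N ^ A`.

(2) For each `t` there are infinitely many scales `N` at which the same is true for ALL irrational simple `x`: for all `F`
such that `F(log p, t, X)` has no rational zeros. If `log p` and `t` satisfy an algebraic relation of degree at most `D`
this is the case for all large `N`.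

Here `κ` depends only on `p`, `D`, `K`, `A`. (For a rational number `x` the multiples are not uniformly distributed. A
polynomial `F` as in (2) with the zero `x` exists for every irrational `x` algebraic over `ℚ(log p, t)`, for large `D` and
`N`: the minimal polynomial.)

The proof: if the multiples of `x` are not uniformly distributed, `x` is near a rational number `p / q` with a small
denominator, and the polynomial `q ^ D F(x, y, p / q)` is small at `(log p, t)`; so it has a small irreducible factor
(`Pool/Agent/Q29/FacHt.lean`), and two different irreducible polynomials are not both small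
(`Pool/Agent/TH456/TM/Near.lean`, by the measure of transcendence of `log p`). The engine is `Pool/Agent/Q29/GoodAlg.lean`
(helper29, for all numbers with a measure of transcendence). The distribution follows by an inverse theorem for the sums of
Weyl and a form of the estimate of Vinogradov for sums over primes from the starting files (`H373R2/NB`, `W110/HV`).
-/

set_option autoImplicit false

namespace Pool.Agent.Results.MP_d171e3_nt.AlgebraicElements

open Finset Polynomial

/-- the value `P(z, t)` of a polynomial in two variables; the inner variable `x` is `z`, the outer variable `y` is `t` -/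
noncomputable def val (z t : ℝ) (P : ℤ[X][X]) : ℝ := eval₂ (aeval z : ℤ[X] →ₐ[ℤ] ℝ).toRingHom t P

/-- the largest absolute value of a coefficient of a polynomial in two variables -/
noncomputable def height (P : ℤ[X][X]) : ℕ :=
  P.support.sup fun j => (P.coeff j).support.sup fun i => ((P.coeff j).coeff i).natAbs

/-- the integer polynomials in two variables of degree at most `D` in each variable and height at most `H` -/
def Poly (D : ℕ) (H : ℝ) : Set ℤ[X][X] :=
  {P | P.natDegree ≤ D ∧ (∀ j, (P.coeff j).natDegree ≤ D) ∧ (height P : ℝ) ≤ H}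

/-- the irreducible integer polynomials in two variables, of degree at most `D` in each variable, with a
positive leading coefficient -/
def Irr (D : ℕ) : Set ℤ[X][X] :=
  {P | Irreducible P ∧ P.natDegree ≤ D ∧ (∀ j, (P.coeff j).natDegree ≤ D) ∧
    0 < P.leadingCoeff.leadingCoeff}

/-- The points `y n ∈ ℝ ^ s`, `n ∈ S`, are uniformly distributed modulo one with error `E` in the cubes of side `1 / q`,
`q ≤ Q`. -/
def Equi {s : ℕ} (S : Finset ℕ) (y : ℕ → Fin s → ℝ) (Q E : ℝ) : Prop :=
  ∀ q : ℕ, 1 ≤ q → (q : ℝ) ≤ Q → ∀ ρ : Fin s → ℤ, (∀ j, 0 ≤ ρ j ∧ ρ j < q) →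
    |((S.filter fun n => ∀ j, (ρ j : ℝ) / q ≤ Int.fract (y n j) ∧ Int.fract (y n j) < (ρ j + 1) / q).card : ℝ) -
      S.card / (q : ℝ) ^ s| ≤ E

/-- The multiples of the vector `x` are uniformly distributed modulo one at the scale `M`, with a power saving, along all
polynomials of degree `k ≤ K` (the points `x n ^ k + R(n)`, `0 ≤ n < M`, `R` a vector of real polynomials of degree less
than `k`), and along the primes in all residue classes modulo `d ≤ M ^ κ` (the points `x p + β`, `p ≤ M` prime,
`p ≡ r (mod d)`). -/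
def Joint (κ : ℝ) (K M : ℕ) {s : ℕ} (x : Fin s → ℝ) : Prop :=
  (∀ k : ℕ, 1 ≤ k → k ≤ K → ∀ R : Fin s → ℝ[X], (∀ j, (R j).degree < k) →
    Equi (range M) (fun n j => x j * (n : ℝ) ^ k + (R j).eval (n : ℝ)) ((M : ℝ) ^ κ) ((M : ℝ) ^ (1 - κ))) ∧
  (∀ d r : ℕ, 1 ≤ d → (d : ℝ) ≤ (M : ℝ) ^ κ → ∀ β : Fin s → ℝ,
    Equi ((range (M + 1)).filter fun p => p.Prime ∧ p ≡ r [MOD d]) (fun p j => x j * p + β j) ((M : ℝ) ^ κ)
      ((M : ℝ) ^ (1 - κ)))

/-- the polynomial `q ^ D F(x, y, p / q)`, where `F = ∑ F k X ^ k`, `k ≤ D` -/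
noncomputable def subst {D : ℕ} (F : Fin (D + 1) → ℤ[X][X]) (p : ℤ) (q : ℕ) : ℤ[X][X] :=
  ∑ k : Fin (D + 1), (p ^ (k : ℕ) * (q : ℤ) ^ (D - (k : ℕ))) • F k

/-- `x` is a zero of `F(z, t, X) = ∑ F k (z, t) X ^ k` -/
def IsZero (z t : ℝ) {D : ℕ} (F : Fin (D + 1) → ℤ[X][X]) (x : ℝ) : Prop :=
  ∑ k : Fin (D + 1), val z t (F k) * x ^ (k : ℕ) = 0

/-- **Algebraic elements over `ℚ(log p, t)`**, see the text at the beginning of the file. -/
theorem result (p : ℕ) (hp : p.Prime) (D K : ℕ) (A : ℝ) (hD : 1 ≤ D) (hA : 1 ≤ A) : ∃ κ : ℝ, 0 < κ ∧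
      (∀ T : ℝ, ∃ N₀ : ℕ, ∀ N : ℕ, N₀ ≤ N → ∀ t : ℝ, |t| ≤ T → ∃ Q ∈ Irr D, 0 < Q.natDegree ∧
        ∀ F : Fin (D + 1) → ℤ[X][X], (∀ k, F k ∈ Poly D ((N : ℝ) ^ κ)) →
          (∀ (a : ℤ) (b : ℕ), 1 ≤ b → ¬ Q ∣ subst F a b) →
          ∀ x : ℝ, |x| ≤ (N : ℝ) ^ κ → IsZero (Real.log p) t F x →
          ∀ M : ℕ, N ≤ M → (M : ℝ) ≤ (N : ℝ) ^ A → Joint κ K M (fun _ : Fin 1 => x)) ∧
      ∀ t : ℝ, ∃ G : Set ℕ,
        (∀ N ∈ G, ∀ F : Fin (D + 1) → ℤ[X][X], (∀ k, F k ∈ Poly D ((N : ℝ) ^ κ)) →
          (∀ r : ℚ, ¬ IsZero (Real.log p) t F r) →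
          ∀ x : ℝ, |x| ≤ (N : ℝ) ^ κ → IsZero (Real.log p) t F x →
          ∀ M : ℕ, N ≤ M → (M : ℝ) ≤ (N : ℝ) ^ A → Joint κ K M (fun _ : Fin 1 => x)) ∧
        G.Infinite ∧
        ((∃ Q ∈ Irr D, val (Real.log p) t Q = 0) → ∃ N₁ : ℕ, ∀ N : ℕ, N₁ ≤ N → N ∈ G) := by
  have hm : Pool.Agent.TH456.TM.MeasT ((Real.log p : ℝ) : ℂ) := by
    have h := Pool.Agent.TH456.TM.measT_real_log (p : ℚ) (by exact_mod_cast hp.pos)
      (by exact_mod_cast hp.one_lt.ne')
    simpa using h
  obtain ⟨κ, hκ, h1, h2⟩ := Pool.Agent.Q29.Eqd.alg_main _ hm D hD K A hA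
  refine ⟨κ, hκ, ?_, ?_⟩
  · intro T
    obtain ⟨N₀, hN₀⟩ := h1 T
    refine ⟨N₀, fun N hN t ht => ?_⟩
    obtain ⟨Q, hQ, hQ0, h3⟩ := hN₀ N hN t ht
    exact ⟨Q, hQ, hQ0, fun F hF hd x hx hz => h3 F (fun k => (hF k).1) (fun k => (hF k).2.1) (fun k => (hF k).2.2)
      hd x hx hz⟩
  · intro t
    obtain ⟨G, h3, h4, h5⟩ := h2 t
    refine ⟨G, fun N hN F hF hd x hx hz => h3 N hN F (fun k => (hF k).1) (fun k => (hF k).2.1)
      (fun k => (hF k).2.2) hd x hx hz, ?_, h5⟩
    rw [Set.infinite_iff_exists_gt]
    intro n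
    obtain ⟨N, hN, hn⟩ := h4 (n + 1)
    exact ⟨N, hN, by omega⟩

end Pool.Agent.Results.MP_d171e3_nt.AlgebraicElements
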