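import Mathlib
import Pool.Agent.Q29.OvLog

/-!
# Logarithms of almost all tuples of primes: uniform distribution of the multiples, over arbitrary constants

Let `ξ_1, …, ξ_g` be arbitrary real numbers, which may depend on `N` and may be as large as `N ^ H`. For all but
`C N ^ (m - 1 + ε)` of the `m`-tuples of positive integers `x_j ≤ N`, for instance of primes, and all `M` between `N ^ B` and
`N ^ E` the following holds: every value `y = P(log x_1, …, log x_m)` of a polynomial of partial degrees at most `d` whose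
coefficients are polynomials in the `ξ_i` of partial degrees at most `d` with integer coefficients at most `M ^ κ`, some
nonconstant coefficient being at least `N ^ (-H)` in absolute value, has uniformly distributed multiples at the scale `M`:
`n y`, `n < M`, also for `n` in the set of the `k`-th powers or of the prime numbers in a residue class, is uniformly distributed
modulo one, with an error `M ^ (1 - κ)`. The constants do not depend on the numbers `ξ_i`.

The starting file `ArbitraryConstants` of this problem bounds the number of the tuples with a small value of such a polynomial;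
its counting theorem (`Y890.UC`) is used here, with an inverse theorem for the sums of Weyl and a form of the estimate of
Vinogradov for the sums over primes with a power saving (`H373R2/NB`, `W110/HV`).
-/

set_option autoImplicit false

namespace Pool.Agent.Results.MP_d171e3_nt.MultiplesOverConstants

open Finset Polynomial

/-- The multiples of `x` are uniformly distributed at the scale `M`, with a power saving, along all polynomials of degree
at most `K` and along the primes of all residue classes: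

* for every nonzero integer `b` with `|b| ≤ M ^ κ`, every `1 ≤ k ≤ K` and every real polynomial `R` of degree less than
  `k`, the number of `0 ≤ n < M` with the fractional part of `b x n ^ k + R(n)` in `[u, v)` is `(v - u) M` up to
  `M ^ (1 - κ)`, for all `0 ≤ u ≤ v ≤ 1`;
* for every such `b`, every `1 ≤ d ≤ M ^ κ`, every `r` and every real `β`, the number of primes `p ≤ M` with
  `p ≡ r (mod d)` and the fractional part of `b x p + β` in `[u, v)` is `(v - u)` times the number of all the primes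
  `p ≤ M` with `p ≡ r (mod d)`, up to `M ^ (1 - κ)`. -/
def Good (κ : ℝ) (K M : ℕ) (x : ℝ) : Prop :=
  (∀ b : ℤ, b ≠ 0 → |(b : ℝ)| ≤ (M : ℝ) ^ κ → ∀ k : ℕ, 1 ≤ k → k ≤ K → ∀ R : ℝ[X], R.degree < k →
    ∀ u v : ℝ, 0 ≤ u → u ≤ v → v ≤ 1 →
      |(((range M).filter fun n : ℕ => u ≤ Int.fract (b * x * (n : ℝ) ^ k + R.eval (n : ℝ)) ∧
          Int.fract (b * x * (n : ℝ) ^ k + R.eval (n : ℝ)) < v).card : ℝ) - (v - u) * M| ≤
        (M : ℝ) ^ (1 - κ)) ∧
  (∀ b : ℤ, b ≠ 0 → |(b : ℝ)| ≤ (M : ℝ) ^ κ → ∀ d r : ℕ, 1 ≤ d → (d : ℝ) ≤ (M : ℝ) ^ κ → ∀ β : ℝ,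
    ∀ u v : ℝ, 0 ≤ u → u ≤ v → v ≤ 1 →
      |(((range (M + 1)).filter fun p : ℕ => (p.Prime ∧ p ≡ r [MOD d]) ∧
          (u ≤ Int.fract (b * x * p + β) ∧ Int.fract (b * x * p + β) < v)).card : ℝ) -
        (v - u) * ((range (M + 1)).filter fun p : ℕ => p.Prime ∧ p ≡ r [MOD d]).card| ≤
        (M : ℝ) ^ (1 - κ))

/-- The value at `y` of the polynomial `P` whose coefficients are integer polynomials in the numbers `ξ_1, …, ξ_g`. -/
noncomputable def value {g : ℕ} {τ : Type} (ξ : Fin g → ℝ) (y : τ → ℝ) (P : MvPolynomial τ (MvPolynomial (Fin g) ℤ)) : ℝ :=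
  MvPolynomial.eval₂ (MvPolynomial.aeval ξ : MvPolynomial (Fin g) ℤ →ₐ[ℤ] ℝ).toRingHom y P

/-- The polynomials of degree at most `d` in every variable whose coefficients are polynomials in `ξ_1, …, ξ_g` of degree at most
`d` in every variable with integer coefficients of absolute value at most `R`, with a nonconstant coefficient whose value is at
least `r` in absolute value. -/
def Admissible {g : ℕ} {τ : Type} (ξ : Fin g → ℝ) (d : ℕ) (R r : ℝ) (P : MvPolynomial τ (MvPolynomial (Fin g) ℤ)) : Prop :=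
  (∀ j, P.degreeOf j ≤ d) ∧ (∀ e i, (P.coeff e).degreeOf i ≤ d) ∧ (∀ e u, |(((P.coeff e).coeff u : ℤ) : ℝ)| ≤ R) ∧
    ∃ e, e ≠ 0 ∧ r ≤ |MvPolynomial.aeval ξ (P.coeff e)|

/-- The `m`-tuples of integers `1 ≤ x_j ≤ N` for which there are an `M` between `N ^ B` and `N ^ E` and an admissible
polynomial `P` such that the multiples of its value at the numbers `log x_j` are not uniformly distributed at the scale `M`. -/
def Exceptional {g : ℕ} (m : ℕ) (ξ : Fin g → ℝ) (d K : ℕ) (κ B E H : ℝ) (N : ℕ) : Set (Fin m → ℕ) :=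
  {x | (∀ j, 1 ≤ x j ∧ x j ≤ N) ∧ ∃ M : ℕ, (N : ℝ) ^ B ≤ (M : ℝ) ∧ (M : ℝ) ≤ (N : ℝ) ^ E ∧
    ∃ P : MvPolynomial (Fin m) (MvPolynomial (Fin g) ℤ), Admissible ξ d ((M : ℝ) ^ κ) ((N : ℝ) ^ (-H)) P ∧
      ¬ Good κ K M (value ξ (fun j => Real.log (x j)) P)}

theorem result (m g d K : ℕ) (hm : 1 ≤ m) (H ε : ℝ) (hH : 0 ≤ H) (hε : 0 < ε) :
    ∃ B : ℝ, 1 ≤ B ∧ ∀ E : ℝ, ∃ κ : ℝ, 0 < κ ∧ ∃ C : ℝ, ∀ N : ℕ, 1 ≤ N →
      ∀ ξ : Fin g → ℝ, (∀ i, |ξ i| ≤ (N : ℝ) ^ H) →
        (Exceptional m ξ d K κ B E H N).Finite ∧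
        ((Exceptional m ξ d K κ B E H N).ncard : ℝ) ≤ C * (N : ℝ) ^ ((m : ℝ) - 1 + ε) := by
  classical
  obtain ⟨A, hA⟩ : ∃ A : ℝ, A = (H + 1) * (d * (Fintype.card (Fin g) + Fintype.card (Fin m))) + 2 := ⟨_, rfl⟩
  obtain ⟨B, C, hB, hC, hcount⟩ := Pool.Agent.Q29.Eqd.excR_count m g d hm A ε hε
  refine ⟨2 * (B + H) + 1, by linarith, fun E => ?_⟩
  obtain ⟨κ, hκ, T₀, hT₀, hgood⟩ := Pool.Agent.Q29.Eqd.nested_good (G := Fin g) (τ := Fin m) d K E (H + 1) B A H
    (by linarith) hB hH (le_of_eq hA.symm)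
  refine ⟨κ, hκ, C + (max T₀ 1) ^ m, fun N hN ξ hξ => ?_⟩
  have hN1 : (1 : ℝ) ≤ N := by exact_mod_cast hN
  refine Pool.Agent.Q29.Eqd.excR_transfer m g d hm A B C ε T₀ hε hC hcount N hN ξ _ (fun x hx => hx.1) (fun hT => ?_)
  rintro x ⟨hx, M, hM1, hM2, P, ⟨hPd, hPc, hPh, hPe⟩, hbad⟩
  refine ⟨hx, ?_⟩
  by_contra hcon
  push Not at hcon
  apply hbad
  exact hgood N hT ξ _ (fun i => (hξ i).trans (Real.rpow_le_rpow_of_exponent_le hN1 (by linarith)))
    (fun j => Pool.Agent.Q29.Eqd.log_le_rpow N (x j) (hx j).1 (hx j).2 (H + 1) (by linarith))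
    (fun P hPd hPc hPh e he => hcon P hPd hPc hPh e he) M hM1 hM2 P hPd hPc hPh hPe

end Pool.Agent.Results.MP_d171e3_nt.MultiplesOverConstants
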