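import Pool.Agent.Q244.QL.Span
import Pool.Agent.W254.HP.Prod
import Pool.Agent.H297R2.InBakerThm
import Pool.Agent.H297R2.Density

/-!
# The primes whose logarithms occur in relations linear over few numbers

Let `W` be a space of complex numbers of finite dimension `m` over the field of algebraic numbers, for
example the space of the polynomials of degree at most `D` in each of `n` complex numbers `t_j`.  A
relation over `W` is a family of elements `c_q` of `W`, `q` running over the primes, only finitely many
of them nonzero, with `∑ c_q log q ∈ W`.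

All relations over `W` lie in the complex span of at most `m (m - 1)` of them (at most
`(4 D) ^ n - 2 ^ n` of them for polynomials in the `t_j`).  So the set of all primes which occur in a
relation over `W` is finite, and at most `k m (m - 1)`, respectively `k ((4 D) ^ n - 2 ^ n)`, primes
occur in relations with at most `k` terms.  In particular, at most `(4 D) ^ n - 2 ^ n` logarithms of
primes are quotients of polynomials of degree at most `D` in each of `n` given numbers, and for all
primes `p` but `2 ((4 D) ^ n - 2 ^ n)` none of the ratios `log p / log q`, `q` any other prime, is such a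
quotient.

Proof.  Hyperplane case of the linear subgroup theorem of Waldschmidt and Roy (starting library
`Pool.Agent.W254`) and Baker's theorem (`Pool.Agent.H297R2`), applied to systems of relations which are
linearly independent over the complex numbers.
-/

set_option autoImplicit false

namespace Pool.Agent.Results.MP_d171e3_nt.QuotientsAndRatios

open Module

/-- The relations over `W`: finitely supported families `c` of elements of `W`, indexed by the primes,
for which `∑ c q * log q` is an element of `W`. -/
def Relations (W : Submodule (algebraicClosure ℚ ℂ) ℂ) : Set (Nat.Primes →₀ ℂ) :=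
  {c | (∀ q, c q ∈ W) ∧ c.sum (fun q x => x * (Real.log (q : ℕ) : ℂ)) ∈ W}

/-- The primes which occur, with a nonzero coefficient, in a relation over `W` with at most `k`
nonzero coefficients. -/
def Occurring (W : Submodule (algebraicClosure ℚ ℂ) ℂ) (k : ℕ) : Set Nat.Primes :=
  {q | ∃ c ∈ Relations W, c.support.card ≤ k ∧ c q ≠ 0}

/-- All relations over `W` are complex linear combinations of at most `N` relations over `W`; only
finitely many primes occur in them; at most `k N` primes occur in relations with at most `k` terms;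
and all relations which vanish on a certain set of at most `N` primes are zero. -/
def AtMost (W : Submodule (algebraicClosure ℚ ℂ) ℂ) (N : ℕ) : Prop :=
  (∃ T : Finset (Nat.Primes →₀ ℂ), T.card ≤ N ∧ (∀ g ∈ T, g ∈ Relations W) ∧
    ∀ c ∈ Relations W, c ∈ Submodule.span ℂ (T : Set (Nat.Primes →₀ ℂ))) ∧
  (⋃ k, Occurring W k).Finite ∧
  (∀ k, (Occurring W k).ncard ≤ k * N) ∧
  ∃ E : Finset Nat.Primes, E.card ≤ N ∧ ∀ c ∈ Relations W, (∀ q ∈ E, c q = 0) → c = 0

/-- The space of the values at `t` of the polynomials with algebraic coefficients, of degree at most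
`D` in each variable. -/
noncomputable def Polys {n : ℕ} (t : Fin n → ℂ) (D : ℕ) : Submodule (algebraicClosure ℚ ℂ) ℂ :=
  Submodule.span (algebraicClosure ℚ ℂ)
    (Set.range (fun e : Fin n → Fin (D + 1) => ∏ i, t i ^ (e i : ℕ)))

/-- `z` is a quotient of values at `t` of two polynomials with algebraic coefficients, of degree at
most `D` in each variable. -/
def IsQuotient {n : ℕ} (t : Fin n → ℂ) (D : ℕ) (z : ℂ) : Prop :=
  ∃ F G : MvPolynomial (Fin n) (algebraicClosure ℚ ℂ), (∀ i, F.degreeOf i ≤ D) ∧
    (∀ i, G.degreeOf i ≤ D) ∧ MvPolynomial.aeval t G ≠ 0 ∧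
    z = MvPolynomial.aeval t F / MvPolynomial.aeval t G

section aux

open Pool.Agent.Q244.QL

private noncomputable abbrev lg : Nat.Primes → ℂ := fun q => (Real.log (q : ℕ) : ℂ)

private theorem lg_alg (q : Nat.Primes) : IsAlgebraic ℚ (Complex.exp (lg q)) := by
  have hp := q.2.pos
  rw [lg, ← Complex.ofReal_exp, Real.exp_log (by exact_mod_cast hp)]
  exact_mod_cast isAlgebraic_algebraMap (R := ℚ) (A := ℂ) ((q : ℕ) : ℚ)

private theorem lg_indep :
    LinearIndependent (algebraicClosure ℚ ℂ) (fun o : Option Nat.Primes => (o.elim 1 lg : ℂ)) := by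
  classical
  rw [linearIndependent_iff']
  intro s g hg
  -- the finite set of primes
  let T : Finset Nat.Primes := s.preimage some ((Option.some_injective _).injOn)
  have hT : ∀ q, q ∈ T ↔ some q ∈ s := fun q => by simp [T]
  have h1 : ∑ o ∈ s, g o • (o.elim 1 lg : ℂ) =
      (if none ∈ s then (g none : ℂ) else 0) + ∑ q : T, (g (some q) : ℂ) * lg q := by
    have h2 : ∑ o ∈ s, g o • (o.elim 1 lg : ℂ) =
        ∑ o ∈ Finset.insertNone T, if o ∈ s then g o • (o.elim 1 lg : ℂ) else 0 := by
      rw [← Finset.sum_filter]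
      apply Finset.sum_congr
      · ext o
        cases o with
        | none => simp
        | some q => simp [hT]
      · intros; rfl
    rw [h2, Finset.sum_insertNone, ← Finset.sum_coe_sort T]
    congr 1
    · by_cases hn : none ∈ s
      · rw [if_pos hn, if_pos hn, Algebra.smul_def, Option.elim_none, mul_one]
        rfl
      · rw [if_neg hn, if_neg hn]
    · apply Finset.sum_congr rfl
      intro q _
      rw [if_pos ((hT q).1 q.2), Algebra.smul_def]
      rfl
  rw [h1] at hg
  have h3 : LinearIndependent ℚ (fun q : T => lg q) := by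
    exact Pool.Agent.H297R2.linearIndependent_log_prime (fun q : T => ((q : Nat.Primes) : ℕ))
      (fun q => (q : Nat.Primes).2) (fun a b hab => Subtype.ext (Subtype.ext hab))
  obtain ⟨h4, h5⟩ := Pool.Agent.H297R2.baker_inhom (fun q : T => lg q) (fun q => lg_alg q) h3
    (if none ∈ s then (g none : ℂ) else 0) (by
      split_ifs
      · exact mem_algebraicClosure_iff.mp (g none).2
      · exact isAlgebraic_zero) (fun q => (g (some q) : ℂ))
    (fun q => mem_algebraicClosure_iff.mp (g (some q)).2) hg
  intro o ho
  cases o with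
  | none =>
    rw [if_pos ho] at h4
    exact_mod_cast h4
  | some q => exact_mod_cast h5 ⟨q, (hT q).2 ho⟩

private theorem lg_mem (o : Option Nat.Primes) : (o.elim 1 lg : ℂ) ∈
    Submodule.span (algebraicClosure ℚ ℂ) ({1} ∪ {z : ℂ | IsAlgebraic ℚ (Complex.exp z)}) := by
  apply Submodule.subset_span
  cases o with
  | none => exact Or.inl rfl
  | some q => exact Or.inr (lg_alg q)

private theorem cHyp : Pool.Agent.W254.PA.Hyp (Submodule.span (algebraicClosure ℚ ℂ)
    ({1} ∪ {z : ℂ | IsAlgebraic ℚ (Complex.exp z)})) :=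
  fun d l x a hx ha hxa hcol => Pool.Agent.W254.HP.hyperplane d l x a hx ha hxa hcol

private theorem atMost (W : Submodule (algebraicClosure ℚ ℂ) ℂ) (N : ℕ)
    (hN : ∀ (m : ℕ) (f : Fin m → (Nat.Primes →₀ ℂ)), LinearIndependent ℂ f →
      (∀ i, f i ∈ Relations W) → m ≤ N)
    (hE : ∃ E : Finset (Option Nat.Primes), none ∉ E ∧ E.card ≤ N ∧
      ∀ f : Option Nat.Primes →₀ ℂ, (∀ s, f s ∈ W) →
        f.sum (fun o x => x * (o.elim 1 lg : ℂ)) = 0 → (∀ s ∈ E, f s = 0) → f = 0) :
    AtMost W N := by
  classical
  obtain ⟨T, h1, h2, h3⟩ := gens (Ω := ℂ) (Relations W) N hN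
  refine ⟨⟨T, h1, h2, h3⟩, ?_, fun k => (ncard_support (Relations W) N k hN).2, ?_⟩
  · refine (Finset.finite_toSet (T.biUnion Finsupp.support)).subset ?_
    intro q hq
    obtain ⟨k, c, hc, -, hq⟩ := Set.mem_iUnion.1 hq
    exact support_span T (h3 c hc) (Finsupp.mem_support_iff.2 hq)
  · obtain ⟨E, hE0, hEc, hE⟩ := hE
    refine ⟨E.preimage some ((Option.some_injective _).injOn), ?_, ?_⟩
    · refine le_trans ?_ hEc
      rw [← Finset.card_image_of_injective _ (Option.some_injective Nat.Primes)]
      apply Finset.card_le_card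
      intro o ho
      obtain ⟨q, hq, rfl⟩ := Finset.mem_image.1 ho
      simpa using hq
    · intro c hc h0
      have h4 := hE (ext lg c) (by
        intro o
        cases o with
        | none => rw [ext_none]; exact W.neg_mem hc.2
        | some q => rw [ext_some]; exact hc.1 q) (ext_sum lg c) (by
        intro o ho
        cases o with
        | none => exact absurd ho hE0
        | some q => rw [ext_some]; exact h0 q (by simpa using ho))
      ext q
      rw [← ext_some lg c q, h4]
      rfl

private theorem hitting (W B C : Submodule (algebraicClosure ℚ ℂ) ℂ)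
    [FiniteDimensional (algebraicClosure ℚ ℂ) B] [FiniteDimensional (algebraicClosure ℚ ℂ) C]
    (hB : 0 < finrank (algebraicClosure ℚ ℂ) B) (hC : ∀ b ∈ B, ∀ a ∈ W, b * a ∈ C) (N : ℕ)
    (hN : ∀ r : ℕ, r * finrank (algebraicClosure ℚ ℂ) B ≤
      finrank (algebraicClosure ℚ ℂ) C * (finrank (algebraicClosure ℚ ℂ) C - 1) → r ≤ N) :
    ∃ E : Finset (Option Nat.Primes), none ∉ E ∧ E.card ≤ N ∧
      ∀ f : Option Nat.Primes →₀ ℂ, (∀ s, f s ∈ W) →
        f.sum (fun o x => x * (o.elim 1 lg : ℂ)) = 0 → (∀ s ∈ E, f s = 0) → f = 0 := by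
  obtain ⟨E, h1, h2, h3⟩ := Pool.Agent.W254.Ab.exists_exceptional cHyp _ lg_indep lg_mem W B C hB hC
    none
  exact ⟨E, h1, hN _ h2, h3⟩

private theorem polys_mem {n : ℕ} (t : Fin n → ℂ) (D : ℕ)
    (P : MvPolynomial (Fin n) (algebraicClosure ℚ ℂ)) (hP : ∀ i, P.degreeOf i ≤ D) :
    MvPolynomial.aeval t P ∈ Polys t D :=
  Pool.Agent.W254.Ab.aeval_mem_boxV t D P
    (fun m hm i => (MvPolynomial.monomial_le_degreeOf i hm).trans (hP i))

end aux

/-- **Main result.** -/
theorem result :
    -- an arbitrary space
    (∀ W : Submodule (algebraicClosure ℚ ℂ) ℂ, FiniteDimensional (algebraicClosure ℚ ℂ) W →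
      AtMost W (finrank (algebraicClosure ℚ ℂ) W * (finrank (algebraicClosure ℚ ℂ) W - 1))) ∧
    -- polynomials in few numbers
    (∀ (n : ℕ) (t : Fin n → ℂ) (D : ℕ), AtMost (Polys t D) ((4 * D) ^ n - 2 ^ n)) ∧
    -- quotients
    (∀ (n : ℕ) (t : Fin n → ℂ) (D : ℕ),
      {p : Nat.Primes | IsQuotient t D (Real.log (p : ℕ))}.Finite ∧
      {p : Nat.Primes | IsQuotient t D (Real.log (p : ℕ))}.ncard ≤ (4 * D) ^ n - 2 ^ n) ∧
    -- ratios
    (∀ (n : ℕ) (t : Fin n → ℂ) (D : ℕ),
      {p : Nat.Primes | ∃ q : Nat.Primes, q ≠ p ∧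
        IsQuotient t D (Real.log (p : ℕ) / Real.log (q : ℕ))}.Finite ∧
      {p : Nat.Primes | ∃ q : Nat.Primes, q ≠ p ∧
        IsQuotient t D (Real.log (p : ℕ) / Real.log (q : ℕ))}.ncard ≤ 2 * ((4 * D) ^ n - 2 ^ n)) := by
  classical
  have hbox : ∀ (n : ℕ) (t : Fin n → ℂ) (D : ℕ) (m : ℕ) (f : Fin m → (Nat.Primes →₀ ℂ)),
      LinearIndependent ℂ f → (∀ i, f i ∈ Relations (Polys t D)) → m ≤ (4 * D) ^ n - 2 ^ n :=
    fun n t D m f hf hfR => Pool.Agent.Q244.QL.bound_box cHyp lg_indep lg_mem t D m f hf hfR
  refine ⟨?_, ?_, ?_, ?_⟩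
  · intro W hW
    have : FiniteDimensional (algebraicClosure ℚ ℂ) (1 : Submodule (algebraicClosure ℚ ℂ) ℂ) := by
      rw [Submodule.one_eq_span]
      infer_instance
    have h1 : finrank (algebraicClosure ℚ ℂ) (1 : Submodule (algebraicClosure ℚ ℂ) ℂ) = 1 := by
      rw [Submodule.one_eq_span, finrank_span_singleton one_ne_zero]
    refine atMost W _ (fun m f hf hfR =>
      Pool.Agent.Q244.QL.bound_dim cHyp lg_indep lg_mem W m f hf hfR)
      (hitting W 1 W (by rw [h1]; exact Nat.one_pos) ?_ _ ?_)
    · intro b hb a ha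
      obtain ⟨r, rfl⟩ := Submodule.mem_one.1 hb
      rw [← Algebra.smul_def]
      exact W.smul_mem r ha
    · intro r hr
      rw [h1, mul_one] at hr
      exact hr
  · intro n t D
    refine atMost (Polys t D) _ (hbox n t D) ?_
    obtain ⟨E, h1, h2, h3⟩ := Pool.Agent.W254.Ab.gen_exceptional cHyp t D _ lg_indep lg_mem none
    exact ⟨E, h1, h2, h3⟩
  · intro n t D
    have hsub : {p : Nat.Primes | IsQuotient t D (Real.log (p : ℕ))} ⊆
        {q : Nat.Primes | ∃ c ∈ Relations (Polys t D), c.support.card ≤ 1 ∧ c q ≠ 0} := by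
      rintro p ⟨F, G, hF, hG, hG0, h⟩
      refine ⟨Finsupp.single p (MvPolynomial.aeval t G), ⟨?_, ?_⟩, ?_, ?_⟩
      · intro q
        rw [Finsupp.single_apply]
        split_ifs
        · exact polys_mem t D G hG
        · exact Submodule.zero_mem _
      · rw [Finsupp.sum_single_index (by rw [zero_mul]), h, mul_div_cancel₀ _ hG0]
        exact polys_mem t D F hF
      · exact (Finset.card_le_card Finsupp.support_single_subset).trans (by simp)
      · rw [Finsupp.single_eq_same]
        exact hG0
    obtain ⟨h1, h2⟩ := Pool.Agent.Q244.QL.ncard_support (Relations (Polys t D)) _ 1 (hbox n t D)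
    rw [one_mul] at h2
    exact ⟨h1.subset hsub, (Set.ncard_le_ncard hsub h1).trans h2⟩
  · intro n t D
    have hsub : {p : Nat.Primes | ∃ q : Nat.Primes, q ≠ p ∧
        IsQuotient t D (Real.log (p : ℕ) / Real.log (q : ℕ))} ⊆
        {q : Nat.Primes | ∃ c ∈ Relations (Polys t D), c.support.card ≤ 2 ∧ c q ≠ 0} := by
      rintro p ⟨q, hqp, F, G, hF, hG, hG0, h⟩
      have hq0 : (Real.log (q : ℕ) : ℂ) ≠ 0 := by
        have h1 := q.2.one_lt
        have h2 : Real.log ((q : ℕ) : ℝ) ≠ 0 := by
          have : (0 : ℝ) < Real.log ((q : ℕ) : ℝ) := Real.log_pos (by exact_mod_cast h1)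
          exact this.ne'
        exact_mod_cast h2
      refine ⟨Finsupp.single p (MvPolynomial.aeval t G) - Finsupp.single q (MvPolynomial.aeval t F),
        ⟨?_, ?_⟩, ?_, ?_⟩
      · intro r
        rw [Finsupp.sub_apply, Finsupp.single_apply, Finsupp.single_apply]
        apply Submodule.sub_mem
        · split_ifs
          · exact polys_mem t D G hG
          · exact Submodule.zero_mem _
        · split_ifs
          · exact polys_mem t D F hF
          · exact Submodule.zero_mem _
      · rw [Finsupp.sum_sub_index (by intro a b c; ring), Finsupp.sum_single_index (by rw [zero_mul]),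
          Finsupp.sum_single_index (by rw [zero_mul])]
        have h3 : MvPolynomial.aeval t G * (Real.log (p : ℕ) : ℂ) -
            MvPolynomial.aeval t F * (Real.log (q : ℕ) : ℂ) = 0 := by
          rw [div_eq_div_iff hq0 hG0] at h
          linear_combination h
        rw [h3]
        exact Submodule.zero_mem _
      · refine (Finset.card_le_card Finsupp.support_sub).trans ?_
        refine (Finset.card_union_le _ _).trans ?_
        have h4 := Finset.card_le_card
          (Finsupp.support_single_subset (a := p) (b := MvPolynomial.aeval t G))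
        have h5 := Finset.card_le_card
          (Finsupp.support_single_subset (a := q) (b := MvPolynomial.aeval t F))
        rw [Finset.card_singleton] at h4 h5
        omega
      · rw [Finsupp.sub_apply, Finsupp.single_eq_same, Finsupp.single_eq_of_ne hqp.symm, sub_zero]
        exact hG0
    obtain ⟨h1, h2⟩ := Pool.Agent.Q244.QL.ncard_support (Relations (Polys t D)) _ 2 (hbox n t D)
    exact ⟨h1.subset hsub, (Set.ncard_le_ncard hsub h1).trans h2⟩

end Pool.Agent.Results.MP_d171e3_nt.QuotientsAndRatios
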