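import Pool.Agent.H297R2.Density
import Pool.Agent.H53.AS.Pts

/-!
# Logarithms of tuples of `S`-units on an arbitrary variety: the growth of their number

If the conjecture is true, the logarithms of `N` distinct primes `p_1, ..., p_N` are algebraically independent,
so that a point `log a = (log a_1, ..., log a_m)` with `a_i = ∏ p_j ^ A_ij` lies on a variety `V ⊆ 𝔸^m` over
the algebraic numbers only if a linear space defined over `ℚ` through the point is contained in `V`, the
space of all relations between the exponent vectors.  We prove for arbitrary varieties `V` with complex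
coefficients:

* Growth.  Let `ρ` be the greatest dimension of a linear space `R` defined over `ℚ` such that the translate
  `log a + R` is contained in `V` for some tuple `a`.  Then the number of the tuples `a` with exponents of
  absolute value at most `H` and `log a ∈ V` is between `κ⁻¹ H ^ (ρ N)` and
  `κ H ^ (ρ N + (m - ρ) (m - 1))`.  If `V` contains only points of such translates of dimension `0` this
  is at most `κ H ^ (m (m - 1))`, with an exponent independent of the number `N` of the primes, while the number of
  all tuples is `(2 H + 1) ^ (m N)`.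
* Counting.  For every `ρ ≤ m` there are at most `κ H ^ (ρ N + (m - ρ) (m - 1))` tuples `a` with exponents
  of absolute value at most `H` such that `log a ∈ V` and no translate `log a + R` with `dim R > ρ` is
  contained in `V`.

There is no condition on the degree or on the coefficients of `V` (which may depend on the logarithms).
`DependenceInCodimension` of the starting files has the exponent
`(m - 2) N + m (m - 1) + binom (D + m, m) - 1` for the tuples with linearly independent logarithms which satisfy a
polynomial relation of degree at most `D` with arbitrary algebraic coefficients, the relation depending on the tuple.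
The base of the proof is `Pool.Agent.Y787.AS` of the starting library (derivations of germs along ultrafilters and
the hyperplane case of the linear subgroup theorem of Waldschmidt and Roy), where it was handed in only for
the determinantal varieties (`MP_1f047c_nt`).
-/

set_option autoImplicit false

namespace Pool.Agent.Results.MP_d171e3_nt.SUnitPoints

open MvPolynomial

/-- The point with the coordinates `log a_i`, `a_i = ∏ p_j ^ A_ij`. -/
noncomputable def logPoint {m N : ℕ} (p : Fin N → ℕ) (A : Fin m → Fin N → ℤ) : Fin m → ℂ :=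
  fun i => ((Real.log (∏ j, (p j : ℝ) ^ (A i j)) : ℝ) : ℂ)

/-- The translate `y + R_ℂ` of the linear space `R` defined over `ℚ` is contained in the variety
`F_1 = ... = F_r = 0`. -/
def ContainsTranslate {m r : ℕ} (F : Fin r → MvPolynomial (Fin m) ℂ) (y : Fin m → ℂ)
    (R : Submodule ℚ (Fin m → ℚ)) : Prop :=
  ∀ s, ∀ c ∈ Submodule.span ℂ {x : Fin m → ℂ | ∃ v ∈ R, x = fun i => ((v i : ℚ) : ℂ)},
    eval (fun i => y i + c i) (F s) = 0

theorem logPoint_eq {m N : ℕ} (p : Fin N → ℕ) (hp : ∀ j, (p j).Prime) (A : Fin m → Fin N → ℤ) :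
    logPoint p A = fun i => ∑ j, (A i j : ℂ) * (Real.log (p j) : ℂ) := by
  funext i
  have hpos : ∀ j, (0 : ℝ) < p j := fun j => by exact_mod_cast (hp j).pos
  unfold logPoint
  rw [Real.log_prod (fun j _ => (zpow_pos (hpos j) _).ne')]
  push_cast
  refine Finset.sum_congr rfl fun j _ => ?_
  rw [Real.log_zpow]
  push_cast
  rfl

/-- **Main result.** -/
theorem result (m N : ℕ) (p : Fin N → ℕ) (hp : ∀ j, (p j).Prime) (hinj : Function.Injective p)
    (r : ℕ) (F : Fin r → MvPolynomial (Fin m) ℂ) (ρ : ℕ) :
    -- counting
    (ρ ≤ m → ∃ κ : ℕ, ∀ H : ℕ, 1 ≤ H →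
      {A : Fin m → Fin N → ℤ | (∀ i j, |A i j| ≤ H) ∧ (∀ s, eval (logPoint p A) (F s) = 0) ∧
        ∀ R : Submodule ℚ (Fin m → ℚ), ContainsTranslate F (logPoint p A) R →
          Module.finrank ℚ R ≤ ρ}.ncard ≤ κ * H ^ (ρ * N + (m - ρ) * (m - 1))) ∧
    -- growth
    ((∀ (A : Fin m → Fin N → ℤ) (R : Submodule ℚ (Fin m → ℚ)),
        ContainsTranslate F (logPoint p A) R → Module.finrank ℚ R ≤ ρ) →
      (∃ (A : Fin m → Fin N → ℤ) (R : Submodule ℚ (Fin m → ℚ)),
        ContainsTranslate F (logPoint p A) R ∧ Module.finrank ℚ R = ρ) →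
      ∃ κ : ℕ, 1 ≤ κ ∧ ∀ H : ℕ, κ ≤ H →
        H ^ (ρ * N) ≤ κ * {A : Fin m → Fin N → ℤ | (∀ i j, |A i j| ≤ H) ∧
          ∀ s, eval (logPoint p A) (F s) = 0}.ncard ∧
        {A : Fin m → Fin N → ℤ | (∀ i j, |A i j| ≤ H) ∧
          ∀ s, eval (logPoint p A) (F s) = 0}.ncard ≤
          κ * H ^ (ρ * N + (m - ρ) * (m - 1))) := by
  have hunc : Uncountable ℂ := ⟨fun h => not_countable_complex (Set.to_countable _)⟩
  have hli : LinearIndependent ℚ (fun j => (Real.log (p j) : ℂ)) :=
    Pool.Agent.H297R2.linearIndependent_log_prime p hp hinj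
  have hmem : ∀ j, (Real.log (p j) : ℂ) ∈
      Pool.Agent.Y787.AS.LtQ {z : ℂ | IsAlgebraic ℚ (Complex.exp z)} := by
    intro j
    refine Submodule.subset_span (Or.inr ?_)
    have hpos : (0 : ℝ) < p j := by exact_mod_cast (hp j).pos
    have h1 : Complex.exp (Real.log (p j) : ℂ) = ((p j : ℕ) : ℂ) := by
      rw [← Complex.ofReal_exp, Real.exp_log hpos, Complex.ofReal_natCast]
    change IsAlgebraic ℚ (Complex.exp (Real.log (p j) : ℂ))
    rw [h1]
    exact isAlgebraic_nat _
  have hE : ∀ A : Fin m → Fin N → ℤ, logPoint p A =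
      fun i => ∑ j, (A i j : ℂ) * (Real.log (p j) : ℂ) := logPoint_eq p hp
  simp only [hE]
  exact ⟨fun hρ => Pool.Agent.H53.AS.count_pt Pool.Agent.Y787.AS.hypQ_complex hρ _ hmem hli F,
    fun hmax hex => Pool.Agent.H53.AS.growth Pool.Agent.Y787.AS.hypQ_complex _ hmem hli F
      hmax hex⟩

end Pool.Agent.Results.MP_d171e3_nt.SUnitPoints
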